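import Mathlib

open Topology Filter

namespace Pool.Agent.Results.MP_9c76b4_al.NoQuasiSection

/-- A map `t : H → G` between topological groups is a quasihomomorphism. -/
def IsQuasihom {G H : Type*} [Group G] [TopologicalSpace G] [Group H] [TopologicalSpace H]
    (t : H → G) : Prop :=
  t 1 = 1 ∧ ContinuousAt (fun p : H × H => t p.1 * t p.2 * (t (p.1 * p.2))⁻¹) (1, 1) ∧
    ∀ y : H, ContinuousAt (fun h : H => t y * t h * (t y)⁻¹ * (t (y * h * y⁻¹))⁻¹) 1

/-- The group of finitely supported functions `ℝ → ℚ`. -/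
def H₀ : Type := ℝ →₀ ℚ

noncomputable instance : AddCommGroup H₀ := inferInstanceAs (AddCommGroup (ℝ →₀ ℚ))

/-- The value of an element at a point, as an additive homomorphism. -/
noncomputable def ev (i : ℝ) : H₀ →+ ℚ := Finsupp.applyAddHom i

/-- The cylinder around `h` given by the set `C`. -/
def cyl (C : Set ℝ) (h : H₀) : Set H₀ := {h' | ∀ i ∈ C, ev i h' = ev i h}

/-- The topology of `H₀`: a base is formed by the cylinders over the countable sets. -/
instance : TopologicalSpace H₀ where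
  IsOpen U := ∀ h ∈ U, ∃ C : Set ℝ, C.Countable ∧ cyl C h ⊆ U
  isOpen_univ := fun h _ => ⟨∅, Set.countable_empty, fun _ _ => trivial⟩
  isOpen_inter := by
    intro U V hU hV h hh
    obtain ⟨C, hC, hCU⟩ := hU h hh.1
    obtain ⟨D, hD, hDV⟩ := hV h hh.2
    exact ⟨C ∪ D, hC.union hD, fun x hx => ⟨hCU fun i hi => hx i (Or.inl hi),
      hDV fun i hi => hx i (Or.inr hi)⟩⟩
  isOpen_sUnion := by
    intro S hS h hh
    obtain ⟨U, hU, hhU⟩ := hh
    obtain ⟨C, hC, hCU⟩ := hS U hU h hhU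
    exact ⟨C, hC, fun x hx => ⟨U, hU, hCU hx⟩⟩

lemma isOpen_cyl {C : Set ℝ} (hC : C.Countable) (h : H₀) : IsOpen (cyl C h) := by
  intro x hx
  refine ⟨C, hC, fun y hy i hi => ?_⟩
  rw [hy i hi, hx i hi]

lemma mem_nhds_H {h : H₀} {U : Set H₀} :
    U ∈ 𝓝 h ↔ ∃ C : Set ℝ, C.Countable ∧ cyl C h ⊆ U := by
  rw [mem_nhds_iff]
  constructor
  · rintro ⟨V, hVU, hV, hh⟩
    obtain ⟨C, hC, hCV⟩ := hV h hh
    exact ⟨C, hC, hCV.trans hVU⟩
  · rintro ⟨C, hC, hCU⟩
    exact ⟨cyl C h, hCU, isOpen_cyl hC h, fun _ _ => rfl⟩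

instance : IsTopologicalAddGroup H₀ where
  continuous_add := by
    rw [continuous_iff_continuousAt]
    rintro ⟨a, b⟩
    intro U hU
    obtain ⟨C, hC, hCU⟩ := mem_nhds_H.mp hU
    rw [mem_map, mem_nhds_prod_iff]
    refine ⟨cyl C a, (isOpen_cyl hC a).mem_nhds fun _ _ => rfl, cyl C b,
      (isOpen_cyl hC b).mem_nhds fun _ _ => rfl, ?_⟩
    rintro ⟨x, y⟩ ⟨hx, hy⟩
    refine hCU fun i hi => ?_
    simp only [map_add]
    rw [hx i hi, hy i hi]
  continuous_neg := by
    rw [continuous_iff_continuousAt]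
    intro a U hU
    obtain ⟨C, hC, hCU⟩ := mem_nhds_H.mp hU
    rw [mem_map]
    refine mem_of_superset ((isOpen_cyl hC a).mem_nhds fun _ _ => rfl) ?_
    intro x hx
    refine hCU fun i hi => ?_
    simp only [map_neg]
    rw [hx i hi]

instance : T2Space H₀ := by
  refine ⟨fun a b hab => ?_⟩
  obtain ⟨i, hi⟩ : ∃ i, ev i a ≠ ev i b := by
    by_contra h
    push Not at h
    exact hab (Finsupp.ext h)
  refine ⟨cyl {i} a, cyl {i} b, isOpen_cyl (Set.countable_singleton i) a,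
    isOpen_cyl (Set.countable_singleton i) b, fun _ _ => rfl, fun _ _ => rfl, ?_⟩
  rw [Set.disjoint_left]
  intro x hx hy
  exact hi ((hx i rfl).symm.trans (hy i rfl))

/-- The element with value `q` at `i`, and `0` elsewhere. -/
noncomputable def sgl (i : ℝ) : ℚ →+ H₀ := Finsupp.singleAddHom i

lemma ev_sgl_ne {i j : ℝ} (h : i ≠ j) (q : ℚ) : ev j (sgl i q) = 0 := by
  change (Finsupp.single i q : ℝ →₀ ℚ) j = 0
  rw [Finsupp.single_eq_of_ne (by exact fun h' => h h'.symm)]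

/-- The sum of the values of an element of `H₀`. -/
noncomputable def S : H₀ →+ ℚ := Finsupp.liftAddHom (fun _ : ℝ => AddMonoidHom.id ℚ)

/-- The group `G₀` of all pairs `(h, k)` with `k n = S h * n!` for all but finitely many `n`. -/
noncomputable def G₀ : AddSubgroup (H₀ × (ℕ → ℤ)) where
  carrier := {p | ∀ᶠ n : ℕ in atTop, (p.2 n : ℚ) = S p.1 * (n.factorial : ℚ)}
  add_mem' := by
    intro p q hp hq
    filter_upwards [hp, hq] with n h1 h2
    simp only [Prod.snd_add, Prod.fst_add, Pi.add_apply, map_add, Int.cast_add]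
    rw [h1, h2, add_mul]
  zero_mem' := by
    refine Eventually.of_forall fun n => ?_
    simp
  neg_mem' := by
    intro p hp
    filter_upwards [hp] with n h1
    simp only [Prod.snd_neg, Prod.fst_neg, Pi.neg_apply, map_neg, Int.cast_neg]
    rw [h1, neg_mul]

lemma exists_floor (q : ℚ) : ∀ᶠ n : ℕ in atTop, ((⌊q * n.factorial⌋ : ℤ) : ℚ) = q * n.factorial := by
  filter_upwards [eventually_ge_atTop q.den] with n hn
  obtain ⟨m, hm⟩ : q.den ∣ n.factorial := Nat.dvd_factorial q.den_pos hn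
  have h1 : q * (n.factorial : ℚ) = ((q.num * m : ℤ) : ℚ) := by
    rw [hm]
    push_cast
    rw [← mul_assoc, Rat.mul_den_eq_num]
  rw [h1, Int.floor_intCast]

/-- The projection of `G₀` to `H₀`. -/
noncomputable def f₀ : G₀ →+ H₀ := (AddMonoidHom.fst H₀ (ℕ → ℤ)).comp G₀.subtype

lemma f₀_continuous : Continuous f₀ := continuous_fst.comp continuous_subtype_val

lemma mem_nhds_N {k : ℕ → ℤ} {U : Set (ℕ → ℤ)} (hU : U ∈ 𝓝 k) :
    ∃ N : ℕ, ∀ k' : ℕ → ℤ, (∀ n < N, k' n = k n) → k' ∈ U := by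
  rw [nhds_pi, Filter.mem_pi] at hU
  obtain ⟨I, hI, t, ht, hIt⟩ := hU
  obtain ⟨N, hN⟩ := hI.bddAbove
  refine ⟨N + 1, fun k' hk' => hIt fun i hi => ?_⟩
  rw [hk' i (Nat.lt_succ_of_le (hN hi))]
  exact mem_of_mem_nhds (ht i)

lemma f₀_open : IsOpenMap f₀ := by
  rw [isOpenMap_iff_nhds_le]
  rintro ⟨⟨h, k⟩, hk⟩ W hW
  rw [mem_map, nhds_subtype_eq_comap, mem_comap] at hW
  obtain ⟨U, hU, hUW⟩ := hW
  rw [mem_nhds_prod_iff] at hU
  obtain ⟨U₁, hU₁, U₂, hU₂, hU⟩ := hU
  obtain ⟨C, hC, hCU⟩ := mem_nhds_H.mp hU₁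
  obtain ⟨N, hN⟩ := mem_nhds_N hU₂
  change W ∈ 𝓝 h
  rw [mem_nhds_H]
  refine ⟨C, hC, fun h' hh' => ?_⟩
  set k' : ℕ → ℤ := fun n => if n < N then k n else ⌊S h' * n.factorial⌋ with hk'
  have hmem : ((h', k') : H₀ × (ℕ → ℤ)) ∈ G₀ := by
    change ∀ᶠ n : ℕ in atTop, (k' n : ℚ) = S h' * (n.factorial : ℚ)
    filter_upwards [exists_floor (S h'), eventually_ge_atTop N] with n h1 h2
    rw [hk']
    simp only [if_neg (not_lt.mpr h2)]
    exact h1
  have := @hUW ⟨(h', k'), hmem⟩ (hU ⟨hCU hh', hN k' fun n hn => by simp [hk', hn]⟩)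
  exact this

lemma f₀_surjective : Function.Surjective f₀ := by
  intro h
  refine ⟨⟨(h, fun n => ⌊S h * n.factorial⌋), ?_⟩, rfl⟩
  change ∀ᶠ n : ℕ in atTop, ((⌊S h * n.factorial⌋ : ℤ) : ℚ) = S h * (n.factorial : ℚ)
  exact exists_floor (S h)

/-- Every additive homomorphism `ℚ → ℤ` is zero. -/
lemma hom_rat_int (g : ℚ →+ ℤ) (q : ℚ) : g q = 0 := by
  set k : ℕ := (g q).natAbs + 1 with hk
  have hk0 : (k : ℚ) ≠ 0 := by positivity
  have h1 : g q = k * g (q / k) := by
    have h2 : q = k • (q / k) := by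
      rw [nsmul_eq_mul]
      field_simp
    conv_lhs => rw [h2]
    rw [map_nsmul, nsmul_eq_mul]
  have h3 : (k : ℤ) ∣ g q := ⟨_, h1⟩
  by_contra h0
  have h4 := Int.natAbs_dvd_natAbs.mpr h3
  have h5 := Nat.le_of_dvd (Int.natAbs_pos.mpr h0) h4
  simp only [Int.natAbs_natCast] at h5
  omega

/-- The additive form of the main result. -/
lemma main_add (s : H₀ → G₀) (hs : ∀ h, f₀ (s h) = h) (h0 : s 0 = 0)
    (hc : ContinuousAt (fun p : H₀ × H₀ => s p.1 + s p.2 - s (p.1 + p.2)) (0, 0)) : False := by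
  have key : ∀ N : ℕ, ∃ C : Set ℝ, C.Countable ∧ ∀ a ∈ cyl C 0, ∀ b ∈ cyl C 0, ∀ n < N,
      (s a).1.2 n + (s b).1.2 n = (s (a + b)).1.2 n := by
    intro N
    have hW : {x : G₀ | ∀ n < N, x.1.2 n = 0} ∈ 𝓝 (0 : G₀) := by
      have h1 : IsOpen {x : G₀ | ∀ n < N, x.1.2 n = 0} := by
        have h2 : {x : G₀ | ∀ n < N, x.1.2 n = 0} =
            ⋂ n ∈ Finset.range N, {x : G₀ | x.1.2 n = 0} := by
          ext x
          simp
        rw [h2]
        refine isOpen_biInter_finset fun n _ => ?_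
        have h3 : Continuous fun x : G₀ => x.1.2 n :=
          (continuous_apply n).comp (continuous_snd.comp continuous_subtype_val)
        exact (isOpen_discrete ({0} : Set ℤ)).preimage h3
      exact h1.mem_nhds fun n _ => rfl
    have h4 : s (0, (0 : H₀)).1 + s (0, (0 : H₀)).2 - s ((0, (0 : H₀)).1 + (0, (0 : H₀)).2) = 0 := by
      simp [h0]
    have h5 := hc.preimage_mem_nhds (t := {x : G₀ | ∀ n < N, x.1.2 n = 0}) (by
      simp only [h0, add_zero, sub_zero]
      exact hW)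
    rw [mem_nhds_prod_iff] at h5
    obtain ⟨U₁, hU₁, U₂, hU₂, hU⟩ := h5
    obtain ⟨C, hC, hCU⟩ := mem_nhds_H.mp hU₁
    obtain ⟨D, hD, hDU⟩ := mem_nhds_H.mp hU₂
    refine ⟨C ∪ D, hC.union hD, fun a ha b hb n hn => ?_⟩
    have h6 := hU (show (a, b) ∈ U₁ ×ˢ U₂ from ⟨hCU fun i hi => ha i (Or.inl hi),
      hDU fun i hi => hb i (Or.inr hi)⟩) n hn
    have h7 : (s a).1.2 n + (s b).1.2 n - (s (a + b)).1.2 n = 0 := h6
    linarith
  choose C hC hCs using key
  have hcount : (⋃ N, C N).Countable := Set.countable_iUnion hC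
  obtain ⟨i, hi⟩ : ∃ i : ℝ, i ∉ ⋃ N, C N := by
    by_contra h
    push Not at h
    have : (Set.univ : Set ℝ).Countable := hcount.mono fun x _ => h x
    exact Cardinal.not_countable_real this
  have hmem : ∀ (q : ℚ) (N : ℕ), sgl i q ∈ cyl (C N) 0 := by
    intro q N j hj
    have hij : i ≠ j := by
      rintro rfl
      exact hi (Set.mem_iUnion.mpr ⟨N, hj⟩)
    rw [ev_sgl_ne hij, map_zero]
  let g : ∀ n : ℕ, ℚ →+ ℤ := fun n =>
    { toFun := fun q => (s (sgl i q)).1.2 n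
      map_zero' := by
        rw [map_zero, h0]
        rfl
      map_add' := by
        intro a b
        rw [map_add]
        exact (hCs (n + 1) _ (hmem a _) _ (hmem b _) n (Nat.lt_succ_self n)).symm }
  have h1 : ∀ n : ℕ, (s (sgl i 1)).1.2 n = 0 := fun n => hom_rat_int (g n) 1
  have h2 : ∀ᶠ n : ℕ in atTop, ((s (sgl i 1)).1.2 n : ℚ) =
      S (s (sgl i 1)).1.1 * (n.factorial : ℚ) :=
    (s (sgl i 1)).2
  have h3 : (s (sgl i 1)).1.1 = (sgl i 1) := hs _
  have h4 : S (sgl i 1) = 1 := by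
    change Finsupp.liftAddHom (fun _ : ℝ => AddMonoidHom.id ℚ) (Finsupp.single i (1 : ℚ)) = 1
    rw [Finsupp.liftAddHom_apply_single]
    rfl
  obtain ⟨n, hn⟩ := h2.exists
  rw [h1 n, h3, h4, one_mul, Int.cast_zero] at hn
  have : (n.factorial : ℚ) ≠ 0 := by exact_mod_cast n.factorial_ne_zero
  exact this hn.symm

/-- **Main result.** There are Hausdorff abelian topological groups `G`, `H` and an open
continuous surjective homomorphism `f : G → H` no section of which is a quasihomomorphism. -/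
theorem result : ∃ (G H : Type) (_ : CommGroup G) (_ : TopologicalSpace G)
    (_ : IsTopologicalGroup G) (_ : CommGroup H) (_ : TopologicalSpace H)
    (_ : IsTopologicalGroup H) (f : G →* H),
    T2Space G ∧ T2Space H ∧ Continuous f ∧ IsOpenMap f ∧ Function.Surjective f ∧
      ∀ s : H → G, (∀ h, f (s h) = h) → ¬ IsQuasihom s := by
  refine ⟨Multiplicative G₀, Multiplicative H₀, inferInstance, inferInstance, inferInstance,
    inferInstance, inferInstance, inferInstance, AddMonoidHom.toMultiplicative f₀,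
    inferInstanceAs (T2Space G₀), inferInstanceAs (T2Space H₀),
    f₀_continuous, f₀_open, f₀_surjective, ?_⟩
  intro s hs hq
  obtain ⟨h1, h2, -⟩ := hq
  exact main_add s hs h1 (by
    have h3 := h2
    simp only [sub_eq_add_neg] at h3 ⊢
    exact h3)

end Pool.Agent.Results.MP_9c76b4_al.NoQuasiSection
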